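import Pool.Agent.H2.NF.S3
import Pool.Agent.H52.HYP.CX4

/-!
# NF: row BDRN
-/

set_option autoImplicit false

namespace Pool.NF

open Matrix Pool.HYP Pool.TOW Pool.AVS Pool.T1 NumberField

namespace BDRN67

theorem toOne {n : ℕ} (A : Matrix (Fin n) (Fin n) ℂ) (hA : Aᵀ = A) (hd : A.det ≠ 0) :
    ∃ k : Matrix (Fin n) (Fin n) ℂ, k.det ≠ 0 ∧ kᵀ * A * k = 1 := by
  obtain ⟨a, w, ha, haw, hw⟩ := Pool.HYP.CX4.exists_diag (two_ne_zero) A hA hd
  choose s hs using fun i => IsAlgClosed.exists_pow_nat_eq (w i) (n := 2) (by norm_num)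
  have hs0 : ∀ i, s i ≠ 0 := fun i h => by
    apply hw i
    rw [← hs i, h]
    norm_num
  refine ⟨a * diagonal (fun i => (s i)⁻¹), ?_, ?_⟩
  · rw [det_mul, det_diagonal]
    exact mul_ne_zero ha (Finset.prod_ne_zero_iff.2 fun i _ => inv_ne_zero (hs0 i))
  · rw [transpose_mul, diagonal_transpose]
    calc diagonal (fun i => (s i)⁻¹) * aᵀ * A * (a * diagonal fun i => (s i)⁻¹)
        = diagonal (fun i => (s i)⁻¹) * (aᵀ * A * a) * diagonal (fun i => (s i)⁻¹) := by
          simp only [Matrix.mul_assoc]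
      _ = 1 := by
          rw [haw, diagonal_mul_diagonal, diagonal_mul_diagonal, ← diagonal_one]
          congr 1
          ext i
          rw [← hs i]
          have := hs0 i
          field_simp

theorem congC {n : ℕ} (A B : Matrix (Fin n) (Fin n) ℂ) (hA : Aᵀ = A) (hB : Bᵀ = B)
    (hdA : A.det ≠ 0) (hdB : B.det ≠ 0) :
    ∃ k : Matrix (Fin n) (Fin n) ℂ, k.det ≠ 0 ∧ kᵀ * A * k = B := by
  obtain ⟨a, ha, haA⟩ := toOne A hA hdA
  obtain ⟨b, hb, hbB⟩ := toOne B hB hdB
  have hbu : IsUnit b.det := isUnit_iff_ne_zero.2 hb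
  have h1 : b * b⁻¹ = 1 := mul_nonsing_inv b hbu
  have h2 : (b⁻¹)ᵀ * bᵀ = 1 := by rw [← transpose_mul, h1, transpose_one]
  refine ⟨a * b⁻¹, ?_, ?_⟩
  · rw [det_mul]
    refine mul_ne_zero ha ?_
    intro h0
    have h3 : b.det * (b⁻¹).det = 1 := by rw [← det_mul, h1, det_one]
    rw [h0, mul_zero] at h3
    exact zero_ne_one h3
  · calc (a * b⁻¹)ᵀ * A * (a * b⁻¹) = (b⁻¹)ᵀ * (aᵀ * A * a) * b⁻¹ := by
          rw [transpose_mul]; simp only [Matrix.mul_assoc]
      _ = (b⁻¹)ᵀ * (bᵀ * B * b) * b⁻¹ := by rw [haA, hbB]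
      _ = ((b⁻¹)ᵀ * bᵀ) * B * (b * b⁻¹) := by simp only [Matrix.mul_assoc]
      _ = B := by rw [h1, h2, Matrix.one_mul, Matrix.mul_one]

section

variable {K : Type} [Field K] [NumberField K] {n N : ℕ}

/-- The matrix of the embeddings. -/
noncomputable def W (N : ℕ) (e : Fin n → (K →+* ℂ)) (ω : Module.Basis (Fin n) ℚ K) :
    Matrix (Fin N × Fin n) (Fin N × Fin n) ℂ :=
  Matrix.of fun p q => if p.1 = q.1 then e p.2 (ω q.2) else 0

theorem trm_eq (eA : Fin n ≃ (K →ₐ[ℚ] ℂ)) (ω : Module.Basis (Fin n) ℚ K)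
    (A : Matrix (Fin N) (Fin N) K) :
    (trm ω A).map (algebraMap ℚ ℂ) = (W N (fun s => (eA s : K →+* ℂ)) ω)ᵀ *
      Matrix.blockDiagonal (fun s => A.map (eA s)) * W N (fun s => (eA s : K →+* ℂ)) ω := by
  ext ⟨i, j⟩ ⟨i', j'⟩
  rw [Matrix.map_apply]
  have h1 : algebraMap ℚ ℂ (trm ω A (i, j) (i', j'))
      = ∑ s : Fin n, eA s (ω j * ω j' * A i i') := by
    show algebraMap ℚ ℂ (Algebra.trace ℚ K (ω j * ω j' * A i i')) = _
    rw [trace_eq_sum_embeddings ℂ]
    exact (Equiv.sum_comp eA (fun σ : K →ₐ[ℚ] ℂ => σ (ω j * ω j' * A i i'))).symm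
  rw [h1]
  simp only [Matrix.mul_apply, Fintype.sum_prod_type, W, Matrix.transpose_apply, Matrix.of_apply,
    Matrix.blockDiagonal_apply, Matrix.map_apply, RingHom.coe_coe, map_mul, ite_mul, zero_mul,
    mul_ite, mul_zero, Finset.mem_univ, if_true, Finset.sum_ite_eq']
  rw [Finset.sum_comm]
  simp
  refine Finset.sum_congr rfl fun s _ => ?_
  ring

theorem W_det (eA : Fin n ≃ (K →ₐ[ℚ] ℂ)) (ω : Module.Basis (Fin n) ℚ K) :
    (W N (fun s => (eA s : K →+* ℂ)) ω).det ≠ 0 := by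
  have h1 : W N (fun s => (eA s : K →+* ℂ)) ω = Matrix.kroneckerMap (fun x y => x * y)
      (1 : Matrix (Fin N) (Fin N) ℂ) (Matrix.of fun s j => eA s (ω j)) := by
    ext ⟨i, j⟩ ⟨i', j'⟩
    simp [W, Matrix.one_apply]
  rw [h1, Matrix.det_kronecker, det_one, one_pow, one_mul]
  refine pow_ne_zero _ ?_
  intro h0
  have h2 : algebraMap ℚ ℂ (Algebra.discr ℚ ω) = 0 := by
    rw [Algebra.discr_eq_det_embeddingsMatrixReindex_pow_two ℚ ℂ ω eA]
    have h3 : Algebra.embeddingsMatrixReindex ℚ ℂ ω eA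
        = (Matrix.of fun s j => eA s (ω j) : Matrix (Fin n) (Fin n) ℂ)ᵀ := by
      ext i j
      simp [Algebra.embeddingsMatrixReindex]
    rw [h3, det_transpose, h0]
    norm_num
  have h4 : Algebra.discr ℚ ω = 0 := (algebraMap ℚ ℂ).injective (by rw [h2, map_zero])
  exact Algebra.discr_not_zero_of_basis ℚ ω h4

theorem real_of_conj {ι : Type} (k : Matrix ι ι ℂ) (h : k.map (starRingEnd ℂ) = k) :
    ∃ kr : Matrix ι ι ℝ, kr.map (Complex.ofRealHom) = k := by
  refine ⟨k.map Complex.re, ?_⟩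
  ext i j
  have h1 : (starRingEnd ℂ) (k i j) = k i j := congrFun (congrFun h i) j
  exact Complex.conj_eq_iff_re.1 h1

theorem fam (eA : Fin n ≃ (K →ₐ[ℚ] ℂ)) (τ : Fin n → Fin n)
    (hτ : ∀ s x, eA (τ s) x = starRingEnd ℂ (eA s x)) (hττ : ∀ s, τ (τ s) = s)
    (A B : Matrix (Fin N) (Fin N) K) (hA : Aᵀ = A) (hB : Bᵀ = B) (hdA : A.det ≠ 0)
    (hdB : B.det ≠ 0) (hR : ∀ σ : K →+* ℝ, CongR (A.map σ) (B.map σ)) :
    ∃ k : Fin n → Matrix (Fin N) (Fin N) ℂ, (∀ s, (k s).det ≠ 0) ∧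
      (∀ s, (k s)ᵀ * A.map (eA s) * k s = B.map (eA s)) ∧
      ∀ s, k (τ s) = (k s).map (starRingEnd ℂ) := by
  have hc : ∀ s, ∃ c : Matrix (Fin N) (Fin N) ℂ, c.det ≠ 0 ∧
      cᵀ * A.map (eA s) * c = B.map (eA s) ∧ (τ s = s → c.map (starRingEnd ℂ) = c) := by
    intro s
    by_cases hs : τ s = s
    · have hreal : ComplexEmbedding.IsReal (eA s : K →+* ℂ) := by
        rw [ComplexEmbedding.isReal_iff]
        ext x
        rw [ComplexEmbedding.conjugate_coe_eq]
        have := hτ s x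
        rw [hs] at this
        exact this.symm
      obtain ⟨kR, hk, hkR⟩ := hR hreal.embedding
      have e1 : ∀ M : Matrix (Fin N) (Fin N) K, (M.map hreal.embedding).map Complex.ofRealHom
          = M.map (eA s) := by
        intro M
        ext i j
        exact hreal.coe_embedding_apply (M i j)
      refine ⟨kR.map Complex.ofRealHom, ?_, ?_, fun _ => ?_⟩
      · rw [← RingHom.mapMatrix_apply, ← RingHom.map_det]
        intro h0
        exact hk (Complex.ofReal_injective (by simpa using h0))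
      · rw [← e1 A, ← e1 B, ← hkR, Matrix.map_mul, Matrix.map_mul, Matrix.transpose_map]
      · ext i j
        exact Complex.conj_ofReal _
    · have t1 : (A.map (eA s))ᵀ = A.map (eA s) := by rw [← Matrix.transpose_map, hA]
      have t2 : (B.map (eA s))ᵀ = B.map (eA s) := by rw [← Matrix.transpose_map, hB]
      have d1 : (A.map (eA s)).det ≠ 0 := by
        have : (A.map (eA s)).det = eA s A.det := by
          rw [AlgHom.map_det, AlgHom.mapMatrix_apply]
        rw [this]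
        exact fun h => hdA ((map_eq_zero_iff _ (eA s).toRingHom.injective).1 h)
      have d2 : (B.map (eA s)).det ≠ 0 := by
        have : (B.map (eA s)).det = eA s B.det := by
          rw [AlgHom.map_det, AlgHom.mapMatrix_apply]
        rw [this]
        exact fun h => hdB ((map_eq_zero_iff _ (eA s).toRingHom.injective).1 h)
      obtain ⟨c, hc1, hc2⟩ := congC _ _ t1 t2 d1 d2
      exact ⟨c, hc1, hc2, fun h => absurd h hs⟩
  choose c hc1 hc2 hc3 using hc
  have hcc : ∀ M : Matrix (Fin N) (Fin N) ℂ,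
      (M.map (starRingEnd ℂ)).map (starRingEnd ℂ) = M := by
    intro M
    ext i j
    exact Complex.conj_conj _
  have hmapc : ∀ (M : Matrix (Fin N) (Fin N) K) (s : Fin n),
      (M.map (eA (τ s))).map (starRingEnd ℂ) = M.map (eA s) := by
    intro M s
    ext i j
    show (starRingEnd ℂ) (eA (τ s) (M i j)) = eA s (M i j)
    rw [hτ, Complex.conj_conj]
  refine ⟨fun s => if s ≤ τ s then c s else (c (τ s)).map (starRingEnd ℂ), fun s => ?_,
    fun s => ?_, fun s => ?_⟩
  · by_cases h : s ≤ τ s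
    · simp only [if_pos h]; exact hc1 s
    · simp only [if_neg h]
      rw [← RingHom.mapMatrix_apply, ← RingHom.map_det]
      exact fun h0 => hc1 (τ s) ((map_eq_zero_iff _ (starRingEnd ℂ).injective).1 h0)
  · by_cases h : s ≤ τ s
    · simp only [if_pos h]; exact hc2 s
    · simp only [if_neg h]
      have h1 := congrArg (fun M : Matrix (Fin N) (Fin N) ℂ => M.map (starRingEnd ℂ)) (hc2 (τ s))
      simp only [Matrix.map_mul, Matrix.transpose_map, hmapc] at h1
      exact h1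
  · by_cases hs : τ s = s
    · rw [hs]
      simp only [hs, le_refl, if_true]
      exact (hc3 s hs).symm
    · rcases lt_or_gt_of_ne hs with h | h
      · -- τ s < s
        have h1 : ¬ s ≤ τ s := not_le.2 h
        have h2 : τ s ≤ τ (τ s) := by rw [hττ]; exact h.le
        simp only [if_pos h2, if_neg h1]
        exact (hcc _).symm
      · have h1 : s ≤ τ s := h.le
        have h2 : ¬ τ s ≤ s := not_le.2 h
        simp only [hττ, if_neg h2, if_pos h1]

end

end BDRN67

open BDRN67 in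
theorem bdrn : BDRNStmt := by
  classical
  intro K _ _ n N ω A B hA hB hdA hdB hR
  have hcard : Fintype.card (Fin n) = Fintype.card (K →ₐ[ℚ] ℂ) := by
    rw [AlgHom.card ℚ K ℂ, Module.finrank_eq_card_basis ω]
  set eA : Fin n ≃ (K →ₐ[ℚ] ℂ) := Fintype.equivOfCardEq hcard with heA
  set cj : (K →ₐ[ℚ] ℂ) → (K →ₐ[ℚ] ℂ) := fun σ =>
    ((starRingEnd ℂ).comp (σ : K →+* ℂ)).toRatAlgHom with hcj
  have hcj1 : ∀ σ x, cj σ x = starRingEnd ℂ (σ x) := fun σ x => rfl
  have hcj2 : ∀ σ, cj (cj σ) = σ := by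
    intro σ
    ext x
    rw [hcj1, hcj1, Complex.conj_conj]
  set τ : Fin n → Fin n := fun s => eA.symm (cj (eA s)) with hτd
  have hτ : ∀ s x, eA (τ s) x = starRingEnd ℂ (eA s x) := by
    intro s x
    simp only [hτd, Equiv.apply_symm_apply]
    exact hcj1 _ _
  have hττ : ∀ s, τ (τ s) = s := by
    intro s
    simp only [hτd, Equiv.apply_symm_apply, hcj2, Equiv.symm_apply_apply]
  obtain ⟨k, hk1, hk2, hk3⟩ := fam eA τ hτ hττ A B hA hB hdA hdB hR
  set w := W N (fun s => (eA s : K →+* ℂ)) ω with hw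
  have hwd : w.det ≠ 0 := W_det eA ω
  have hwu : IsUnit w.det := isUnit_iff_ne_zero.2 hwd
  set D := Matrix.blockDiagonal k with hD
  set X := w⁻¹ * D * w with hX
  have hwX : w * X = D * w := by
    rw [hX, ← Matrix.mul_assoc, ← Matrix.mul_assoc, mul_nonsing_inv w hwu, Matrix.one_mul]
  -- the conjugate
  set ρ : Fin N × Fin n → Fin N × Fin n := fun p => (p.1, τ p.2) with hρ
  have hwc : ∀ p q, starRingEnd ℂ (w p q) = w (ρ p) q := by
    rintro ⟨i, s⟩ ⟨j, t⟩
    simp only [hw, W, hρ, Matrix.of_apply]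
    by_cases h : i = j
    · rw [if_pos h, if_pos h]
      exact (hτ s (ω t)).symm
    · rw [if_neg h, if_neg h, map_zero]
  have hDc : ∀ p q, starRingEnd ℂ (D p q) = D (ρ p) (ρ q) := by
    rintro ⟨i, s⟩ ⟨j, t⟩
    simp only [hD, hρ, Matrix.blockDiagonal_apply]
    by_cases h : s = t
    · subst h
      rw [if_pos rfl, if_pos rfl, hk3]
      rfl
    · have h' : ¬ τ s = τ t := fun h1 => h (by rw [← hττ s, h1, hττ])
      rw [if_neg h, if_neg h', map_zero]
  have hρρ : ∀ p, ρ (ρ p) = p := fun p => by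
    simp only [hρ, hττ]
  let ρE : (Fin N × Fin n) ≃ (Fin N × Fin n) := ⟨ρ, ρ, hρρ, hρρ⟩
  have hXc : w * X.map (starRingEnd ℂ) = w * X := by
    ext p q
    have h1 : ∀ p q, (w * X.map (starRingEnd ℂ)) (ρ p) q = (w * X) (ρ p) q := by
      intro p q
      have h2 : (w * X.map (starRingEnd ℂ)) (ρ p) q = starRingEnd ℂ ((w * X) p q) := by
        simp only [Matrix.mul_apply, map_sum, map_mul, hwc, Matrix.map_apply]
      rw [h2, hwX]
      simp only [Matrix.mul_apply, map_sum, map_mul, hwc, hDc]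
      exact Equiv.sum_comp ρE (fun r => D (ρ p) r * w r q)
    have h3 := h1 (ρ p) q
    rwa [hρρ] at h3
  have hXr : X.map (starRingEnd ℂ) = X := by
    have := congrArg (fun M => w⁻¹ * M) hXc
    simpa only [← Matrix.mul_assoc, nonsing_inv_mul w hwu, Matrix.one_mul] using this
  obtain ⟨kr, hkr⟩ := real_of_conj X hXr
  have hmR : ∀ M : Matrix (Fin N × Fin n) (Fin N × Fin n) ℚ,
      (mR M).map Complex.ofRealHom = M.map (algebraMap ℚ ℂ) := by
    intro M
    ext i j
    simp [mR]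
  have hinj : ∀ M M' : Matrix (Fin N × Fin n) (Fin N × Fin n) ℝ,
      M.map Complex.ofRealHom = M'.map Complex.ofRealHom → M = M' := by
    intro M M' h
    ext i j
    exact Complex.ofReal_injective (congrFun (congrFun h i) j)
  have hXD : X.det ≠ 0 := by
    intro h0
    have h1 : w.det * X.det = D.det * w.det := by rw [← det_mul, hwX, det_mul]
    rw [h0, mul_zero, hD, det_blockDiagonal] at h1
    exact mul_ne_zero (Finset.prod_ne_zero_iff.2 fun s _ => hk1 s) hwd h1.symm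
  refine ⟨kr, ?_, ?_⟩
  · intro h0
    apply hXD
    rw [← hkr, ← RingHom.mapMatrix_apply, ← RingHom.map_det, h0, map_zero]
  · apply hinj
    rw [Matrix.map_mul, Matrix.map_mul, Matrix.transpose_map, hkr, hmR, hmR, trm_eq eA ω A,
      trm_eq eA ω B, ← hw]
    have hAB : Matrix.blockDiagonal (fun s => B.map (eA s))
        = Dᵀ * Matrix.blockDiagonal (fun s => A.map (eA s)) * D := by
      rw [hD, Matrix.blockDiagonal_transpose, ← Matrix.blockDiagonal_mul,
        ← Matrix.blockDiagonal_mul]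
      congr 1
      funext s
      exact (hk2 s).symm
    rw [hAB]
    have hwX' : Xᵀ * wᵀ = wᵀ * Dᵀ := by
      rw [← transpose_mul, hwX, transpose_mul]
    calc Xᵀ * (wᵀ * Matrix.blockDiagonal (fun s => A.map (eA s)) * w) * X
        = (Xᵀ * wᵀ) * Matrix.blockDiagonal (fun s => A.map (eA s)) * (w * X) := by
          simp only [Matrix.mul_assoc]
      _ = _ := by rw [hwX', hwX]; simp only [Matrix.mul_assoc]

end Pool.NF
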