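import Pool.Agent.H2.NF.S3

/-!
# NF: row NEAQ
-/

set_option autoImplicit false

namespace Pool.NF

open Matrix Filter Topology Pool.HYP Pool.TOW Pool.AVS Pool.T1

namespace NEAQ67

variable {O : ValuationSubring ℚ}

theorem two_pow_mem (h2 : (2 : ℚ) ∈ O) (N : ℕ) : (2 : ℚ) ^ N ∈ O := O.pow_mem h2 N

theorem ev_pow_mul (h2 : (2 : ℚ) ∈ O)
    (hu : ∀ x : ℚ, x ≠ 0 → UI (O : Set ℚ) (x / (2 : ℚ) ^ padicValRat 2 x)) (x : ℚ) :
    ∀ᶠ N : ℕ in atTop, (2 : ℚ) ^ N * x ∈ O := by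
  rcases eq_or_ne x 0 with h0 | h0
  · subst h0
    refine Eventually.of_forall fun N => ?_
    rw [mul_zero]
    exact O.zero_mem
  · set v := padicValRat 2 x with hv
    have hx := (hu x h0).2.1
    rw [← hv] at hx
    filter_upwards [eventually_ge_atTop v.natAbs] with N hN
    have hNv : (0 : ℤ) ≤ (N : ℤ) + v := by omega
    obtain ⟨m, hm⟩ := Int.eq_ofNat_of_zero_le hNv
    have e : (2 : ℚ) ^ N * x = (2 : ℚ) ^ m * (x / (2 : ℚ) ^ v) := by
      have h1 : (2 : ℚ) ^ m = (2 : ℚ) ^ N * (2 : ℚ) ^ v := by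
        rw [← zpow_natCast, ← zpow_natCast, ← zpow_add₀ (by norm_num : (2 : ℚ) ≠ 0)]
        congr 1
        exact hm.symm
      rw [h1]
      have h2' : (2 : ℚ) ^ v ≠ 0 := zpow_ne_zero _ (by norm_num)
      field_simp
    rw [e]
    exact O.mul_mem _ _ (two_pow_mem h2 m) hx

theorem ev_inv (hU : Unif O (2 : ℚ)) : ∀ᶠ N : ℕ in atTop, ((2 : ℚ) ^ N + 1)⁻¹ ∈ O := by
  obtain ⟨-, h2, h2i, h3⟩ := hU
  filter_upwards [eventually_ge_atTop 1] with N hN
  by_contra hcon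
  have h4 : (2 : ℚ) ^ N + 1 ∈ O := O.add_mem _ _ (two_pow_mem h2 N) O.one_mem
  have h5 := h3 _ h4 hcon
  obtain ⟨M, rfl⟩ : ∃ M, N = M + 1 := ⟨N - 1, by omega⟩
  have h6 : (2 : ℚ)⁻¹ = ((2 : ℚ) ^ (M + 1) + 1) / 2 - (2 : ℚ) ^ M := by
    rw [pow_succ]; ring
  apply h2i
  rw [h6]
  exact O.sub_mem h5 (two_pow_mem h2 M)

end NEAQ67

open NEAQ67 in
theorem neaq (hI : IZVStmt) : NEAQStmt := by
  classical
  intro ι _ _ A B hN hR ε a hε ha
  obtain ⟨O, hO, hU, hu, -, -, -, -⟩ := hI 2 Nat.prime_two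
  have hmem : ∀ x : ℚ, x ∈ O ↔ x ∈ IZ 2 := fun x => by
    rw [← hO]; rfl
  have hU2 : Unif O (2 : ℚ) := by simpa using hU
  have hu2 : ∀ x : ℚ, x ≠ 0 → UI (O : Set ℚ) (x / (2 : ℚ) ^ padicValRat 2 x) := by
    intro x hx
    have := hu x hx
    simpa using this
  have h2 : (2 : ℚ) ∈ O := hU2.2.1
  obtain ⟨k2, hk2d, hk2⟩ := hN a ha
  obtain ⟨kr, hkrd, hkr⟩ := hR
  -- the open set
  have hεR : (0 : ℝ) < (ε : ℝ) := by exact_mod_cast hε
  set U : Set (Matrix ι ι ℝ) := {k | k.det ≠ 0 ∧ ∀ i j, |(kᵀ * mR A * k - mR B) i j| < (ε : ℝ)}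
    with hUdef
  have hUo : IsOpen U := by
    have h1 : IsOpen {k : Matrix ι ι ℝ | k.det ≠ 0} := by
      have : Continuous fun k : Matrix ι ι ℝ => k.det := Continuous.matrix_det continuous_id
      exact isOpen_ne_fun this continuous_const
    have h3 : ∀ i j, IsOpen {k : Matrix ι ι ℝ | |(kᵀ * mR A * k - mR B) i j| < (ε : ℝ)} := by
      intro i j
      have hc : Continuous fun k : Matrix ι ι ℝ => kᵀ * mR A * k - mR B :=
        ((Continuous.matrix_mul (Continuous.matrix_mul (Continuous.matrix_transpose continuous_id)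
          continuous_const) continuous_id)).sub continuous_const
      have hc' : Continuous fun k : Matrix ι ι ℝ => |(kᵀ * mR A * k - mR B) i j| :=
        (hc.matrix_elem i j).abs
      exact isOpen_lt hc' continuous_const
    have h4 : U = {k : Matrix ι ι ℝ | k.det ≠ 0} ∩ ⋂ i, ⋂ j,
        {k : Matrix ι ι ℝ | |(kᵀ * mR A * k - mR B) i j| < (ε : ℝ)} := by
      ext k
      simp [hUdef]
    rw [h4]
    exact h1.inter (isOpen_iInter_of_finite fun i => isOpen_iInter_of_finite fun j => h3 i j)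
  have hkrU : kr ∈ U := by
    refine ⟨hkrd, fun i j => ?_⟩
    rw [hkr, sub_self]
    simpa using hεR
  have hdense : DenseRange fun q : Matrix ι ι ℚ => (mR q : Matrix ι ι ℝ) := by
    have h1 : DenseRange (Pi.map (fun _ : ι => Pi.map (fun _ : ι => (Rat.cast : ℚ → ℝ)))) :=
      DenseRange.piMap fun _ => DenseRange.piMap fun _ => Rat.denseRange_cast
    exact h1
  obtain ⟨kq, hkq⟩ := hdense.exists_mem_open hUo ⟨kr, hkrU⟩
  -- the sequence
  set r : ℕ → ℚ := fun N => (2 : ℚ) ^ N * ((2 : ℚ) ^ N + 1)⁻¹ with hr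
  set D := kq - k2 with hD
  have hev1 : ∀ᶠ N : ℕ in atTop, mR (k2 + r N • D) ∈ U := by
    have ht : Tendsto (fun N : ℕ => mR (k2 + r N • D)) atTop (𝓝 (mR kq)) := by
      have e : ∀ N : ℕ, mR (k2 + r N • D)
          = mR kq - (((2 : ℝ) ^ N + 1)⁻¹) • (mR kq - mR k2) := by
        intro N
        ext i j
        have h0 : ((2 : ℝ) ^ N + 1) ≠ 0 := by positivity
        simp only [mR, hD, hr, Matrix.map_apply, Matrix.add_apply, Matrix.smul_apply,
          Matrix.sub_apply, smul_eq_mul, Rat.coe_castHom]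
        push_cast
        field_simp
        ring
      have hlim : Tendsto (fun N : ℕ => ((2 : ℝ) ^ N + 1)⁻¹) atTop (𝓝 0) := by
        have h1 : Tendsto (fun N : ℕ => (2 : ℝ) ^ N + 1) atTop atTop :=
          tendsto_atTop_add_const_right _ _ (tendsto_pow_atTop_atTop_of_one_lt (by norm_num))
        exact tendsto_inv_atTop_zero.comp h1
      have h5 : Tendsto (fun N : ℕ => mR kq - (((2 : ℝ) ^ N + 1)⁻¹) • (mR kq - mR k2)) atTop
          (𝓝 (mR kq - (0 : ℝ) • (mR kq - mR k2))) :=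
        tendsto_const_nhds.sub (hlim.smul_const _)
      rw [zero_smul, sub_zero] at h5
      simp only [e]
      exact h5
    exact ht.eventually (hUo.mem_nhds hkq)
  have hev2 : ∀ᶠ N : ℕ in atTop, ∀ i j,
      (2 : ℚ) ^ N * ((k2ᵀ * A * D + Dᵀ * A * k2) i j / a) ∈ O ∧
      (2 : ℚ) ^ N * ((Dᵀ * A * D) i j / a) ∈ O := by
    refine eventually_all.2 fun i => eventually_all.2 fun j => ?_
    exact (ev_pow_mul h2 hu2 _).and (ev_pow_mul h2 hu2 _)
  obtain ⟨N, hN1, hN2, hN3⟩ := (hev1.and (hev2.and (ev_inv hU2))).exists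
  refine ⟨k2 + r N • D, ?_, fun i j => ⟨?_, ?_⟩⟩
  · intro h0
    apply hN1.1
    have : (mR (k2 + r N • D)).det = (((k2 + r N • D).det : ℚ) : ℝ) := by
      unfold mR
      rw [← RingHom.mapMatrix_apply, ← RingHom.map_det]
      rfl
    rw [this, h0, Rat.cast_zero]
  · have h1 := (hN1.2 i j).le
    have h3 : (mR (k2 + r N • D))ᵀ * mR A * mR (k2 + r N • D) - mR B
        = mR ((k2 + r N • D)ᵀ * A * (k2 + r N • D) - B) := by
      unfold mR
      rw [Matrix.map_sub _ (by intro x y; exact map_sub _ x y), Matrix.map_mul, Matrix.map_mul,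
        Matrix.transpose_map]
    rw [h3] at h1
    have h4 : |((((k2 + r N • D)ᵀ * A * (k2 + r N • D) - B) i j : ℚ) : ℝ)| ≤ (ε : ℝ) := h1
    exact_mod_cast h4
  · rw [← hmem]
    have e : ((k2 + r N • D)ᵀ * A * (k2 + r N • D) - B) i j / a
        = (k2ᵀ * A * k2 - B) i j / a
          + ((2 : ℚ) ^ N * ((k2ᵀ * A * D + Dᵀ * A * k2) i j / a)) * ((2 : ℚ) ^ N + 1)⁻¹
          + ((2 : ℚ) ^ N * ((Dᵀ * A * D) i j / a)) * (2 : ℚ) ^ N
            * (((2 : ℚ) ^ N + 1)⁻¹ * ((2 : ℚ) ^ N + 1)⁻¹) := by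
      have h1 : (k2 + r N • D)ᵀ * A * (k2 + r N • D)
          = k2ᵀ * A * k2 + r N • (k2ᵀ * A * D + Dᵀ * A * k2) + (r N * r N) • (Dᵀ * A * D) := by
        rw [Matrix.transpose_add, Matrix.transpose_smul, Matrix.add_mul, Matrix.add_mul,
          Matrix.mul_add, Matrix.mul_add]
        simp only [Matrix.smul_mul, Matrix.mul_smul, smul_add, smul_smul]
        abel
      rw [h1]
      simp only [Matrix.sub_apply, Matrix.add_apply, Matrix.smul_apply, smul_eq_mul, hr]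
      ring
    rw [e]
    obtain ⟨q1, q2⟩ := hN2 i j
    refine O.add_mem _ _ (O.add_mem _ _ ((hmem _).2 (hk2 i j)) (O.mul_mem _ _ q1 hN3)) ?_
    exact O.mul_mem _ _ (O.mul_mem _ _ q2 (two_pow_mem h2 N)) (O.mul_mem _ _ hN3 hN3)

end Pool.NF
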